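import Pool.Agent.W2helper64.RI.Bohr

/-!
# Boxes of iterated equations

Let `a, b, c` be as in the question and `f x = (b x + c) / a`, so that `f q = p` says `a p - b q = c`. If
`f^s(m) = q` and `f^t(m) = p` with `s < t`, then `p, q` solve the iterated equation
`a^j p - b^j q = c (a^(j-1) + a^(j-2) b + ... + b^(j-1))` with `j = t - s`, which again satisfies the hypotheses
of the question. So a starting value `m` with primes at the times `t_0, ..., t_k` solves the
`k (k + 1) / 2` iterated equations with the numbers `|t_i - t_j|` simultaneously.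

For all `k ≥ 1` and `ε > 0` there is `C` such that for EVERY triple `(a, b, c)` of the question the following
holds in every large box of a lattice: for at least the proportion `(k + 1) (5/18)^k - ε` of the vectors `h` of
the box, and the times `t_i = h_i - min h` (`h_0 = 0`), all patterns of primes and non-primes among
`f^{t_0}(m), ..., f^{t_k}(m)` occur for at least `x / (log x)^C` of the `m ≤ x`, for arbitrarily large `x`.

Proof: good vectors are differences of the elements of an almost clique of linear forms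
(`Pool.Agent.N646.AC.covF`: coloured Maynard-Tao theorem with the constant `18/5` and hypergraph containers),
here of the forms `a^(W - i) b^i n + β_i` with `a β_{i+1} = b β_i + c` (`Pool.Agent.W25.IT.Rat`). The proportion
in boxes comes from the theorem `Pool.Agent.N646.BX.box_main` (Kneser's theorem, almost periods).
-/

set_option autoImplicit false

namespace Pool.Agent.Results.MP_bf63dc_nt.BoxesOfIterates

open Finset Filter

/-- the hypotheses of the question -/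
def Adm (a b : ℕ) (c : ℤ) : Prop :=
  1 ≤ a ∧ 1 ≤ b ∧ c ≠ 0 ∧ IsCoprime (a : ℤ) b ∧ IsCoprime (a : ℤ) c ∧ IsCoprime (b : ℤ) c ∧
    ¬ (Odd a ∧ Odd b ∧ Odd c)

/-- the map with `f q = p` if and only if `a p - b q = c` -/
def f (a b : ℕ) (c : ℤ) (x : ℚ) : ℚ := (b * x + c) / a

/-- exactly those of the iterates `f^{t_i}(m)`, `i = 0, ..., k`, with `i ∈ J` are primes -/
def Pattern (a b : ℕ) (c : ℤ) {k : ℕ} (t : Fin (k + 1) → ℕ) (J : Finset (Fin (k + 1))) (m : ℕ) : Prop :=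
  ∀ i, (∃ p : ℕ, p.Prime ∧ (f a b c)^[t i] m = p) ↔ i ∈ J

/-- the numbers of iterations `t_i = h_i - min h`, where `h_0 = 0` -/
def times {k : ℕ} (h : Fin k → ℤ) (i : Fin (k + 1)) : ℕ :=
  ((Fin.cons 0 h : Fin (k + 1) → ℤ) i -
    univ.inf' ⟨0, mem_univ 0⟩ (Fin.cons 0 h : Fin (k + 1) → ℤ)).toNat

/-- For arbitrarily large `x`, every pattern `J` at the times `t_i = h_i - min h` occurs for at least
`x / (log x)^C` of the `1 ≤ m ≤ x`. -/
def Good (a b : ℕ) (c : ℤ) (C : ℕ) {k : ℕ} (h : Fin k → ℤ) : Prop :=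
  ∃ᶠ x : ℕ in atTop, ∀ J : Finset (Fin (k + 1)), (x : ℝ) / (Real.log x) ^ C ≤
    ({m : ℕ | 1 ≤ m ∧ m ≤ x ∧ Pattern a b c (times h) J m}.ncard : ℝ)

theorem iter_f {a b : ℕ} (ha : 1 ≤ a) (c : ℤ) (t : ℕ) (x : ℚ) : (f a b c)^[t] x =
    ((b : ℚ) ^ t * x + c * ∑ i ∈ range t, (a : ℚ) ^ i * (b : ℚ) ^ (t - 1 - i)) / (a : ℚ) ^ t := by
  have ha0 : (a : ℚ) ≠ 0 := by positivity
  induction t with
  | zero => simp
  | succ t ih =>
    rw [Function.iterate_succ_apply', ih]
    unfold f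
    have h1 : ∑ i ∈ range (t + 1), (a : ℚ) ^ i * (b : ℚ) ^ (t + 1 - 1 - i) =
        b * (∑ i ∈ range t, (a : ℚ) ^ i * (b : ℚ) ^ (t - 1 - i)) + (a : ℚ) ^ t := by
      rw [sum_range_succ, mul_sum]
      congr 1
      · refine sum_congr rfl fun i hi => ?_
        have h2 := mem_range.1 hi
        have h3 : t + 1 - 1 - i = (t - 1 - i) + 1 := by omega
        rw [h3, pow_succ]
        ring
      · have h3 : t + 1 - 1 - t = 0 := by omega
        rw [h3, pow_zero, mul_one]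
    rw [h1, pow_succ (a : ℚ) t, pow_succ (b : ℚ) t]
    field_simp
    ring

theorem prime_iff {a b : ℕ} (ha : 1 ≤ a) (c : ℤ) (t m : ℕ) :
    (∃ p : ℕ, p.Prime ∧ (f a b c)^[t] m = p) ↔ Pool.Agent.W2helper64.RI.Prm a b c t m := by
  have ha0 : (a : ℚ) ^ t ≠ 0 := by positivity
  unfold Pool.Agent.W2helper64.RI.Prm
  constructor
  · rintro ⟨p, hp, h⟩
    refine ⟨p, hp, ?_⟩
    rw [iter_f ha, div_eq_iff ha0] at h
    have h2 : ((a : ℚ) ^ t * p - (b : ℚ) ^ t * m) =
        c * ∑ i ∈ range t, (a : ℚ) ^ i * (b : ℚ) ^ (t - 1 - i) := by linarith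
    exact_mod_cast h2
  · rintro ⟨p, hp, h⟩
    refine ⟨p, hp, ?_⟩
    rw [iter_f ha, div_eq_iff ha0]
    have h2 : ((a : ℚ) ^ t * p - (b : ℚ) ^ t * m) =
        c * ∑ i ∈ range t, (a : ℚ) ^ i * (b : ℚ) ^ (t - 1 - i) := by exact_mod_cast h
    linarith

theorem ok_of {a b : ℕ} {c : ℤ} (h : Adm a b c) : Pool.Agent.W2helper64.RI.Ok a b c := by
  obtain ⟨ha, hb, hc, hab, hac, hbc, hpar⟩ := h
  refine ⟨by exact_mod_cast ha, by exact_mod_cast hb, hc, hab, hac, hbc, ?_⟩
  rintro ⟨h1, h2, h3⟩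
  exact hpar ⟨by exact_mod_cast h1, by exact_mod_cast h2, h3⟩

theorem good_of {a b : ℕ} {c : ℤ} (ha : 1 ≤ a) {C k : ℕ} {h : Fin k → ℤ}
    (hg : Pool.Agent.W2helper64.RI.GoodD a b c C (Pool.Agent.W2helper64.RI.times h)) : Good a b c C h := by
  classical
  unfold Pool.Agent.W2helper64.RI.GoodD at hg
  unfold Good
  refine hg.mono fun x hx J => (hx J).trans (le_of_eq ?_)
  unfold Pool.Agent.W2helper64.RI.prq
  rw [← Set.ncard_coe_finset]
  congr 2
  ext m
  rw [mem_coe, mem_filter, mem_Icc, Set.mem_ofPred_eq, and_assoc]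
  have h1 : times h = Pool.Agent.W2helper64.RI.times h := rfl
  unfold Pattern
  simp only [prime_iff ha, h1]

/-- **Boxes of iterated equations.** -/
theorem result (k : ℕ) (hk : 1 ≤ k) (ε : ℝ) (hε : 0 < ε) : ∃ C : ℕ, ∀ (a b : ℕ) (c : ℤ), Adm a b c →
    ∃ M : ℕ, 1 ≤ M ∧ ∀ N : ℕ, 1 ≤ N → M ∣ N → ∃ L : ℕ, ∀ T : ℕ, L ≤ T → ∀ v : Fin k → ℤ,
      (∀ j, (M : ℤ) ∣ v j) → ((k + 1) * (5 / 18 : ℝ) ^ k - ε) * (T : ℝ) ^ k ≤
        ({t : Fin k → ℕ | (∀ j, t j < T) ∧ Good a b c C (fun j => v j + N * (t j : ℤ))}.ncard : ℝ) := by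
  classical
  obtain ⟨C, h⟩ := Pool.Agent.W2helper64.RI.box k hk ε hε
  refine ⟨C, fun a b c hadm => ?_⟩
  obtain ⟨M, hM, h1⟩ := h a b c (ok_of hadm)
  refine ⟨M, hM, fun N hN hMN => ?_⟩
  obtain ⟨L, h2⟩ := h1 N hN hMN
  refine ⟨L, fun T hT v hv => (h2 T hT v hv).trans ?_⟩
  rw [Nat.cast_le]
  apply Set.ncard_le_ncard
  · rintro t ⟨ht, hg⟩
    exact ⟨ht, good_of hadm.1 hg⟩
  · apply (Fintype.piFinset (fun _ : Fin k => range T)).finite_toSet.subset
    intro t ht
    rw [mem_coe, Fintype.mem_piFinset]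
    exact fun j => mem_range.2 (ht.1 j)

end Pool.Agent.Results.MP_bf63dc_nt.BoxesOfIterates
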