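import Pool.Agent.W2helper64.DP.Main

/-!
# Dilations at several points at once: a positive share of every almost invariant set

Let `u > 0` be rational, written in lowest terms, and let `c / d` be a rational number in lowest terms. The
equation `a p - b q = c (a - b) / d` with `a` the denominator and `b` the numerator of `u` says that
`d p - c = u (d q - c)`. For `c = 1`, `d = 1` it says that `u = (p - 1) / (q - 1)`, for `c = -1`, `d = 1` that
`u = (p + 1) / (q + 1)`: the question implies that all `u > 0` are of the two forms in infinitely many ways.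

Let `G` be any infinite countable commutative group and let `u_1, ..., u_R` be injective homomorphisms from `G`
to the positive rational numbers, and let `c_ρ / d_ρ` be `R` points such that `u_ρ(γ)` satisfies the necessary
local conditions at `c_ρ / d_ρ` for all `γ` (none, if `c_ρ = ±1` and `d_ρ = 1`). Let `w_0 = 1` and
`w_{R+1}` be the integral part of `18 w_R / 5`; so `w_1 = 3`, `w_2 = 10`, `w_3 = 36`, `w_4 = 129`. For every
`ε > 0` there are a finite set `S` and `δ > 0` such that EVERY nonempty finite `F ⊆ G` with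
`|F ∩ s⁻¹ F| ≥ (1 - δ) |F|` for all `s ∈ S` contains at least `(1 / w_R - ε) |F|` elements `γ` such that all the
`R` equations which belong to `u_ρ(γ)` and `c_ρ / d_ρ`, all of which satisfy the hypotheses of the question, have
at least `x / (log x)^B` prime solutions with `q ≤ x`, for arbitrarily large `x`. For instance `G` may be the group
of all positive rational numbers, `R = 2` and `u_1(γ) = γ`, `u_2(γ) = γ` or `γ ^ k`, with the points `1` and `-1`.

Proof: the coloured Maynard-Tao theorem with the constant `18 / 5` for classes of linear forms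
(`Pool.Agent.R493.SI.classes`), common progressions for the dilations, and nested classes
(`Pool.Agent.R493.SI.densN`).
-/

set_option autoImplicit false

namespace Pool.Agent.Results.MP_bf63dc_nt.CommonDilations

open Finset Filter

/-- the hypotheses of the question -/
def Adm (a b c : ℤ) : Prop :=
  1 ≤ a ∧ 1 ≤ b ∧ c ≠ 0 ∧ IsCoprime a b ∧ IsCoprime a c ∧ IsCoprime b c ∧ ¬ (Odd a ∧ Odd b ∧ Odd c)

/-- for arbitrarily large `x` there are at least `x / (log x) ^ B` primes `q ≤ x` for which there is a prime `p`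
with `a p - b q = c` -/
def Many (B : ℕ) (a b c : ℤ) : Prop :=
  ∃ᶠ x : ℕ in atTop, (x : ℝ) / (Real.log x) ^ B ≤
    ({q : ℕ | q ≤ x ∧ q.Prime ∧ ∃ p : ℕ, p.Prime ∧ a * p - b * q = c}.ncard : ℝ)

/-- the local conditions for `u` at the point `c / d` -/
def Loc (c d : ℤ) (u : ℚ) : Prop :=
  0 < u ∧ (∀ p : ℕ, p.Prime → (p : ℤ) ∣ c → ¬ (p : ℤ) ∣ u.num ∧ ¬ (p : ℤ) ∣ u.den) ∧
    ∀ p : ℕ, p.Prime → (p : ℤ) ∣ d → (p : ℤ) * d ∣ u.num - u.den

/-- the right-hand side `c (a - b) / d` of the equation, where `u = b / a` in lowest terms -/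
def rhs (c d : ℤ) (u : ℚ) : ℤ := c * ((u.den - u.num) / d)

/-- `1, 3, 10, 36, 129, ...` -/
def w : ℕ → ℕ
  | 0 => 1
  | R + 1 => 18 * w R / 5

theorem w_eq (R : ℕ) : w R = Pool.Agent.R493.SI.mR R := by
  induction R with
  | zero => rfl
  | succ R ih =>
    show 18 * w R / 5 = 18 * Pool.Agent.R493.SI.mR R / 5
    rw [ih]

theorem dvd_sub_den {c d : ℤ} (hd : 1 ≤ d) {u : ℚ} (h : Loc c d u) : d ∣ (u.den : ℤ) - u.num := by
  by_cases h1 : d = 1
  · rw [h1]; exact one_dvd _
  · obtain ⟨p, hp, hpd⟩ := Nat.exists_prime_and_dvd (n := d.natAbs) (by omega)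
    have h2 := h.2.2 p hp (Int.natCast_dvd.2 hpd)
    have h3 : d ∣ u.num - u.den := (dvd_mul_left _ _).trans h2
    rw [← neg_sub]
    exact h3.neg_right

theorem cop_num_den (u : ℚ) : IsCoprime (u.den : ℤ) u.num := by
  have h : IsCoprime u.num (u.den : ℤ) := by
    rw [Int.isCoprime_iff_nat_coprime]
    simpa using u.reduced
  exact h.symm

/-- the equations satisfy the hypotheses of the question -/
theorem adm_of {c d : ℤ} (hd : 1 ≤ d) {u : ℚ} (h : Loc c d u) (hu : u ≠ 1) :
    Adm u.den u.num (rhs c d u) := by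
  have hden : (0 : ℤ) < u.den := by exact_mod_cast u.den_pos
  have hnum : 0 < u.num := Rat.num_pos.2 h.1
  have hcop := cop_num_den u
  obtain ⟨k, hk⟩ := dvd_sub_den hd h
  have hd0 : d ≠ 0 := by omega
  have hr : rhs c d u = c * k := by
    unfold rhs
    rw [hk, Int.mul_ediv_cancel_left _ hd0]
  have hne : (u.den : ℤ) - u.num ≠ 0 := by
    intro h0
    apply hu
    have h1 : u.num = (u.den : ℤ) := by linarith
    have h2 : u * u.den = u.num := Rat.mul_den_eq_num u
    rw [h1] at h2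
    have h3 : (u.den : ℚ) ≠ 0 := by exact_mod_cast u.den_nz
    have h4 : u * u.den = 1 * u.den := by
      rw [h2, one_mul]
      norm_cast
    exact mul_right_cancel₀ h3 h4
  have hk0 : k ≠ 0 := by
    rintro rfl
    apply hne
    rw [hk, mul_zero]
  have hkp : ∀ p : ℕ, p.Prime → ¬ ((p : ℤ) ∣ k ∧ (p : ℤ) ∣ u.den) ∧ ¬ ((p : ℤ) ∣ k ∧ (p : ℤ) ∣ u.num) := by
    intro p hp
    have hpp := Nat.prime_iff_prime_int.1 hp
    constructor
    · rintro ⟨h1, h2⟩
      have h3 : (p : ℤ) ∣ (u.den : ℤ) - u.num := by rw [hk]; exact Dvd.dvd.mul_left h1 _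
      have h4 : (p : ℤ) ∣ u.num := by
        have := dvd_sub h2 h3
        rwa [sub_sub_cancel] at this
      exact hpp.not_isUnit (hcop.isUnit_of_dvd' h2 h4)
    · rintro ⟨h1, h2⟩
      have h3 : (p : ℤ) ∣ (u.den : ℤ) - u.num := by rw [hk]; exact Dvd.dvd.mul_left h1 _
      have h4 : (p : ℤ) ∣ (u.den : ℤ) := by
        have := dvd_add h3 h2
        rwa [sub_add_cancel] at this
      exact hpp.not_isUnit (hcop.isUnit_of_dvd' h4 h2)
  refine ⟨by omega, by omega, ?_, hcop, ?_, ?_, ?_⟩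
  · rw [hr]
    refine mul_ne_zero ?_ hk0
    rintro rfl
    -- every prime is prime to the numerator and to the denominator
    have h1 : (u.den : ℤ) = 1 := by
      by_contra hcon
      obtain ⟨p, hp, hpd⟩ := Nat.exists_prime_and_dvd (n := u.den) (by
        intro h0
        apply hcon
        rw [h0]
        rfl)
      exact (h.2.1 p hp (dvd_zero _)).2 (Int.natCast_dvd_natCast.2 hpd)
    have h2 : u.num = 1 := by
      by_contra hcon
      obtain ⟨p, hp, hpd⟩ := Nat.exists_prime_and_dvd (n := u.num.natAbs) (by omega)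
      exact (h.2.1 p hp (dvd_zero _)).1 (Int.natCast_dvd.2 hpd)
    apply hne
    rw [h1, h2, sub_self]
  · rw [hr]
    apply Pool.Agent.W2helper64.DP.icop
    rintro p hp ⟨h1, h2⟩
    rcases (Nat.prime_iff_prime_int.1 hp).dvd_or_dvd h2 with h3 | h3
    · exact (h.2.1 p hp h3).2 h1
    · exact (hkp p hp).1 ⟨h3, h1⟩
  · rw [hr]
    apply Pool.Agent.W2helper64.DP.icop
    rintro p hp ⟨h1, h2⟩
    rcases (Nat.prime_iff_prime_int.1 hp).dvd_or_dvd h2 with h3 | h3
    · exact (h.2.1 p hp h3).1 h1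
    · exact (hkp p hp).2 ⟨h3, h1⟩
  · rintro ⟨h1, h2, h3⟩
    rw [hr, Int.odd_mul] at h3
    have h4 : Even ((u.den : ℤ) - u.num) := h1.sub_odd h2
    by_cases hd2 : Even d
    · have h5 : ((2 : ℕ) : ℤ) ∣ d := by exact_mod_cast hd2.two_dvd
      obtain ⟨v, hv⟩ := h.2.2 2 Nat.prime_two h5
      have h6 : d * k = d * (-(2 * v)) := by
        rw [← hk]
        push_cast at hv
        linarith
      have h7 := mul_left_cancel₀ hd0 h6
      have h8 : Even k := ⟨-v, by rw [h7]; ring⟩
      exact (Int.not_odd_iff_even.2 h8) h3.2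
    · have h5 : Odd d := Int.not_even_iff_odd.1 hd2
      rw [hk] at h4
      have h6 : Odd (d * k) := h5.mul h3.2
      exact (Int.not_even_iff_odd.2 h6) h4

theorem many_iff {B : ℕ} {c d : ℤ} (hd : 1 ≤ d) {u : ℚ} (h : Loc c d u) :
    Pool.Agent.W2helper64.DP.Good B c d u ↔ Many B u.den u.num (rhs c d u) := by
  unfold Pool.Agent.W2helper64.DP.Good Many
  obtain ⟨k, hk⟩ := dvd_sub_den hd h
  have hd0 : d ≠ 0 := by omega
  have hdq : (d : ℚ) ≠ 0 := by exact_mod_cast hd0
  have hr : rhs c d u = c * k := by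
    unfold rhs
    rw [hk, Int.mul_ediv_cancel_left _ hd0]
  have hden : (u.den : ℚ) ≠ 0 := by exact_mod_cast u.den_nz
  have hkq : (u.den : ℚ) - u.num = d * k := by exact_mod_cast hk
  have hun : u * u.den = u.num := Rat.mul_den_eq_num u
  have key : ∀ p q : ℕ, ((d : ℚ) * p - c = u * (d * q - c) ↔ (u.den : ℤ) * p - u.num * q = rhs c d u) := by
    intro p q
    rw [hr]
    have e1 : ((u.den : ℤ) * p - u.num * q = c * k) ↔ ((u.den : ℚ) * p - u.num * q = c * k) := by
      constructor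
      · intro h0; exact_mod_cast h0
      · intro h0; exact_mod_cast h0
    rw [e1]
    constructor
    · intro h0
      have h1 : (d : ℚ) * ((u.den : ℚ) * p - u.num * q) = d * (c * k) := by
        linear_combination (u.den : ℚ) * h0 + (d * (q : ℚ) - c) * hun + (c : ℚ) * hkq
      exact mul_left_cancel₀ hdq h1
    · intro h0
      have h1 : (u.den : ℚ) * ((d : ℚ) * p - c) = u.den * (u * (d * q - c)) := by
        linear_combination (d : ℚ) * h0 - (d * (q : ℚ) - c) * hun - (c : ℚ) * hkq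
      exact mul_left_cancel₀ hden h1
  have hset : ∀ x : ℕ, {q : ℕ | q ≤ x ∧ q.Prime ∧ ∃ p : ℕ, p.Prime ∧ (d : ℚ) * p - c = u * (d * q - c)} =
      {q : ℕ | q ≤ x ∧ q.Prime ∧ ∃ p : ℕ, p.Prime ∧ (u.den : ℤ) * p - u.num * q = rhs c d u} := by
    intro x
    ext q
    constructor
    · rintro ⟨h1, h2, p, h3, h4⟩
      exact ⟨h1, h2, p, h3, (key p q).1 h4⟩
    · rintro ⟨h1, h2, p, h3, h4⟩
      exact ⟨h1, h2, p, h3, (key p q).2 h4⟩
  simp only [hset]

/-- **Dilations at several points at once.** -/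
theorem result (R : ℕ) : ∃ B : ℕ, ∀ (G : Type) [CommGroup G] [Countable G] [Infinite G]
    (u : Fin R → G →* ℚ) (c d : Fin R → ℤ), (∀ ρ, Function.Injective (u ρ)) → (∀ ρ, 1 ≤ d ρ) →
    (∀ ρ γ, Loc (c ρ) (d ρ) (u ρ γ)) → ∀ ε : ℝ, 0 < ε →
    ∃ (S : Finset G) (δ : ℝ), 0 < δ ∧ ∀ F : Finset G, F.Nonempty →
      (∀ s ∈ S, (1 - δ) * F.card ≤ (Set.ncard {γ : G | γ ∈ F ∧ s * γ ∈ F} : ℝ)) →
      (1 / (w R : ℝ) - ε) * F.card ≤
        (Set.ncard {γ : G | γ ∈ F ∧ ∀ ρ,
          (γ ≠ 1 → Adm (u ρ γ).den (u ρ γ).num (rhs (c ρ) (d ρ) (u ρ γ))) ∧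
          Many B (u ρ γ).den (u ρ γ).num (rhs (c ρ) (d ρ) (u ρ γ))} : ℝ) := by
  obtain ⟨B, h⟩ := Pool.Agent.W2helper64.DP.main R
  refine ⟨B, ?_⟩
  intro G _ _ _ u c d hinj hd hloc ε hε
  obtain ⟨S, δ, hδ, h1⟩ := h G u c d hinj hd hloc ε hε
  refine ⟨S, δ, hδ, fun F hF hinv => ?_⟩
  rw [w_eq]
  refine (h1 F hF hinv).trans ?_
  rw [Nat.cast_le]
  apply Set.ncard_le_ncard
  · rintro γ ⟨h2, h3⟩
    refine ⟨h2, fun ρ => ⟨fun hγ => adm_of (hd ρ) (hloc ρ γ) ?_, (many_iff (hd ρ) (hloc ρ γ)).1 (h3 ρ)⟩⟩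
    intro h4
    apply hγ
    apply hinj ρ
    rw [h4, map_one]
  · exact F.finite_toSet.subset fun γ h2 => h2.1

end Pool.Agent.Results.MP_bf63dc_nt.CommonDilations
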