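import Pool.Agent.W2helper64.EN.Fin

/-!
# The formula of Hardy and Littlewood for families of constants of nearly minimal additive energy

Let `s_1, ..., s_x` be ARBITRARY integers with `|s_m| ≤ B N` whose additive energy of some order `h` is at most
`(log N)^C x^(2 h) / N`, that is, minimal up to a power of the logarithm, for instance all the integers (`h = 1`), or
the values of a polynomial, in which case `x` is only a small power of `N`. For all but at most
`x / (log N)^U` of the members the following holds for `c = s_m` (if `c ≠ 0`) simultaneously for ALL the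
coefficients `a, b ≤ (log N)^A` for which `(a, b, c)` satisfies the hypotheses of the question, and for ALL
windows: the number of the prime solutions of `a p - b q = c` with `y < q ≤ y + a X` is `G X / (log N)^2` up to
a factor `1 ± ε`, where `G > 0` is the limit of the partial products of the singular series, for
all `y` and `X` with `b y ≤ B N`, `0 ≤ b y + c` and `a b X ≤ N ≤ X (log N)^W`.

Proof: `Λ - λ_z` is small in the norm dual to the trigonometric polynomials (`λ_z` is the model of the sieve with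
`z` a power of the logarithm), also after dilation by `a` or `b`, and the bilinear inequality
`Pool.Agent.H373R2.T7.bil_main` bounds its correlations along a family of small energy; finitely many
windows and coefficients are controlled at once, all other windows by comparison; the sieve part is
`Pool.Agent.Y820.LF.t_main0` and `Pool.Agent.N699.ST.det_core`.
-/

set_option autoImplicit false

namespace Pool.Agent.Results.MP_bf63dc_nt.FamiliesOfConstants

open Finset Filter

/-- The additive energy of order `h` of the family `s 1, ..., s x`: the number of solutions of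
`s (v 1) + ... + s (v h) = s (w 1) + ... + s (w h)` with all `v i`, `w i` in `{1, ..., x}`. -/
def energy (h x : ℕ) (s : ℕ → ℤ) : ℕ :=
  (((Fintype.piFinset fun _ : Fin h => Icc 1 x) ×ˢ (Fintype.piFinset fun _ : Fin h => Icc 1 x)).filter
    (fun q => ∑ i, s (q.1 i) = ∑ i, s (q.2 i))).card

/-- `a, b, c` are pairwise relatively prime and not all odd, `a, b ≥ 1`. -/
def Ok (a b : ℕ) (c : ℤ) : Prop :=
  1 ≤ a ∧ 1 ≤ b ∧ Nat.Coprime a b ∧ IsCoprime (a : ℤ) c ∧ IsCoprime (b : ℤ) c ∧ (2 : ℤ) ∣ a * b * c

/-- The number of the prime solutions `(p, q)` of `a p - b q = c` with `y < q ≤ y + a X`. -/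
noncomputable def sol (a b : ℕ) (c : ℤ) (y X : ℕ) : ℕ :=
  Set.ncard {x : ℕ × ℕ | x.1.Prime ∧ x.2.Prime ∧ (a : ℤ) * x.1 - b * x.2 = c ∧ y < x.2 ∧ x.2 ≤ y + a * X}

open Classical in
/-- The partial products of the singular series: the factor of a prime `p ≤ z` is `(1 - 1 / p) / (1 - 1 / p) ^ 2` if
`p` divides `a b c`, and `(1 - 2 / p) / (1 - 1 / p) ^ 2` otherwise. -/
noncomputable def sing (a b : ℕ) (c : ℤ) (z : ℕ) : ℝ :=
  ∏ p ∈ (Icc 1 z).filter Nat.Prime, (1 - (if (p : ℤ) ∣ a * b * c then 1 else 2) / (p : ℝ)) / (1 - 1 / (p : ℝ)) ^ 2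

/-- The formula of Hardy and Littlewood, with a relative error of at most `ε`, for the constant `c`, all the
coefficients `a, b ≤ (log N) ^ A` and all the windows `y < q ≤ y + a X` with `b y ≤ B N`, `0 ≤ b y + c` and
`a b X ≤ N ≤ X (log N) ^ W`. -/
def Formula (ε : ℝ) (A B W N : ℕ) (c : ℤ) : Prop :=
  ∀ a b : ℕ, (a : ℝ) ≤ Real.log N ^ A → (b : ℝ) ≤ Real.log N ^ A → Ok a b c →
    ∃ G : ℝ, 0 < G ∧ Tendsto (sing a b c) atTop (nhds G) ∧ ∀ y X : ℕ, b * y ≤ B * N → 0 ≤ (b : ℤ) * y + c →
      a * b * X ≤ N → (N : ℝ) ≤ X * Real.log N ^ W →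
      |(sol a b c y X : ℝ) - G * (X / Real.log N ^ 2)| ≤ ε * (G * (X / Real.log N ^ 2))

/-- **Families of constants of nearly minimal additive energy.** -/
theorem result (h A B C U W : ℕ) (ε : ℝ) (hε : 0 < ε) : ∃ N₀ : ℕ, ∀ N : ℕ, N₀ ≤ N → ∀ (x : ℕ) (s : ℕ → ℤ),
    (∀ m ∈ Icc 1 x, |s m| ≤ B * N) →
    (energy h x s : ℝ) * N ≤ Real.log N ^ C * (x : ℝ) ^ (2 * h) →
    ({m : ℕ | m ∈ Icc 1 x ∧ s m ≠ 0 ∧ ¬ Formula ε A B W N (s m)}.ncard : ℝ) ≤ x / Real.log N ^ U := by
  classical
  obtain ⟨N₀, h0⟩ := Pool.Agent.W2helper64.EN.main h A B C U W ε hε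
  refine ⟨N₀, fun N hN x s hs hE => ?_⟩
  refine le_trans (le_of_eq ?_) (h0 N hN x s hs hE)
  rw [← Set.ncard_coe_finset]
  congr 2
  ext m
  rw [mem_coe, mem_filter]
  exact Iff.rfl

end Pool.Agent.Results.MP_bf63dc_nt.FamiliesOfConstants
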