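import Pool.Agent.W2helper14.RB.Lin5

set_option autoImplicit false

/-!
# The equation `A p - B q = c` in the random sieve model of Banks, Ford and Tao

For every prime `w` a residue class `a w` modulo `w` is chosen uniformly and independently. The random
set `R` consists of the natural numbers `n ≥ e ^ 2` which avoid the class `a w` for every prime `w` with
`∏_(v ≤ w) (1 - 1 / v) ≥ 1 / log n`; this is the random sieve model for the primes of Banks, Ford and
Tao, in which the classes `0 mod w` of the sieve of Eratosthenes are replaced by random ones.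

We prove that almost surely, for all coprime `A, B ≥ 1` and all `c ≠ 0` at the same time, the equation
`A p - B q = c` has infinitely many solutions `p, q ∈ R` if and only if there is no local obstruction, and
that the number of solutions is given by the formula of Hardy and Littlewood with a square-root error. The
singular series is random here: modulo a prime `w` not dividing `A B` the number of the solutions
outside the class `a w` is `w - 1` if `(A - B) a w = c` and `w - 2` otherwise.

The engine is the Bateman-Horn theorem for this model of helper64 (`W2helper64.BQ`).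
-/

namespace Pool.Agent.Results.MP_bf63dc_nt.RandomSieveEquation

open Filter MeasureTheory Topology

/-- the product `V y = ∏_(w ≤ y, w prime) (1 - 1 / w)` -/
noncomputable def V (y : ℕ) : ℝ := ∏ w ∈ (Finset.Icc 1 y).filter Nat.Prime, (1 - 1 / (w : ℝ))

/-- the random set: all `n ≥ e ^ 2` outside the chosen class `a w` for every prime `w` with
`V w ≥ 1 / log n` -/
def R (a : (w : Nat.Primes) → ZMod (w : ℕ)) : Set ℕ :=
  {n | Real.exp 2 ≤ n ∧ ∀ w : Nat.Primes, 1 ≤ V (w : ℕ) * Real.log n → ((n : ℕ) : ZMod (w : ℕ)) ≠ a w}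

/-- the chosen classes `a w`, `w` prime, are independent and uniform modulo `w` -/
noncomputable def law : Measure ((w : Nat.Primes) → ZMod (w : ℕ)) :=
  Measure.infinitePi fun w : Nat.Primes => ProbabilityTheory.uniformOn (Set.univ : Set (ZMod (w : ℕ)))

instance (w : Nat.Primes) : Fact (w : ℕ).Prime := ⟨w.2⟩

open Classical in
/-- the number of the pairs `(u, v)` of residue classes modulo `w` with `A u - B v = c` that avoid the
chosen class: `u ≠ a w` and `v ≠ a w` -/
noncomputable def localCount (A B : ℕ) (c : ℤ) (a : (w : Nat.Primes) → ZMod (w : ℕ)) (w : Nat.Primes) : ℕ :=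
  (Finset.univ.filter fun uv : ZMod (w : ℕ) × ZMod (w : ℕ) =>
    (A : ZMod (w : ℕ)) * uv.1 - B * uv.2 = c ∧ uv.1 ≠ a w ∧ uv.2 ≠ a w).card

/-- the product over the primes `w ≤ z` of the local densities `(localCount / w) / (1 - 1 / w) ^ 2` -/
noncomputable def series (A B : ℕ) (c : ℤ) (a : (w : Nat.Primes) → ZMod (w : ℕ)) (z : ℕ) : ℝ :=
  ∏ w ∈ (Finset.Icc 1 z).subtype Nat.Prime,
    ((localCount A B c a w : ℝ) / (w : ℕ)) / (1 - 1 / ((w : ℕ) : ℝ)) ^ 2

/-- the local conditions: `A, B, c` are not all odd, `B a_w ≠ -c` modulo `w` for the primes `w` dividing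
`A`, and `A a_w ≠ c` modulo `w` for the primes `w` dividing `B` -/
def Admissible (A B : ℕ) (c : ℤ) (a : (w : Nat.Primes) → ZMod (w : ℕ)) : Prop :=
  ¬ (Odd A ∧ Odd B ∧ Odd c) ∧
    (∀ w : Nat.Primes, (w : ℕ) ∣ A → (B : ZMod (w : ℕ)) * a w + c ≠ 0) ∧
    ∀ w : Nat.Primes, (w : ℕ) ∣ B → (A : ZMod (w : ℕ)) * a w - c ≠ 0

/-- the solutions of `A p - B q = c` in elements of `R` -/
def solutions (A B : ℕ) (c : ℤ) (a : (w : Nat.Primes) → ZMod (w : ℕ)) : Set (ℕ × ℕ) :=
  {pq | pq.1 ∈ R a ∧ pq.2 ∈ R a ∧ (A : ℤ) * pq.1 - B * pq.2 = c}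

/-- the number of the solutions of `A p - B q = c` in elements of `R` with `p ≤ x` -/
noncomputable def count (A B : ℕ) (c : ℤ) (a : (w : Nat.Primes) → ZMod (w : ℕ)) (x : ℕ) : ℕ :=
  {pq : ℕ × ℕ | pq.1 ∈ R a ∧ pq.2 ∈ R a ∧ pq.1 ≤ x ∧ (A : ℤ) * pq.1 - B * pq.2 = c}.ncard

/-- the sum of `1 / (log p log q)` over all pairs of integers `p, q ≥ 8` with `A p - B q = c`, `p ≤ x` -/
noncomputable def mainTerm (A B : ℕ) (c : ℤ) (x : ℕ) : ℝ :=
  ∑ᶠ pq ∈ {pq : ℕ × ℕ | 8 ≤ pq.1 ∧ 8 ≤ pq.2 ∧ pq.1 ≤ x ∧ (A : ℤ) * pq.1 - B * pq.2 = c},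
    1 / (Real.log pq.1 * Real.log pq.2)

/-- Almost surely, for all coprime `A, B ≥ 1` and all `c ≠ 0`: the partial products of the singular series
converge to some `S ≥ 0`, `S > 0` holds if and only if the local conditions hold, the equation
`A p - B q = c` has infinitely many solutions `p, q ∈ R` if and only if the local conditions hold, and
the number of the solutions with `p ≤ x` is `S ∑ 1 / (log p log q) + O(x ^ (1 / 2 + ε))` for every `ε > 0`,
the sum being over all integers `p, q ≥ 8` with `A p - B q = c` and `p ≤ x`. Moreover for all `δ > 0` and `U`,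
all large `x` and all `H ≥ x ^ δ` the same formula holds for the solutions with `x < p ≤ x + H`, with an
error of at most `H / (log (x + H)) ^ U`. -/
theorem result : ∀ᵐ a ∂law, ∀ (A B : ℕ) (c : ℤ), 0 < A → 0 < B → A.Coprime B → c ≠ 0 →
    ∃ S : ℝ, 0 ≤ S ∧ Tendsto (series A B c a) atTop (𝓝 S) ∧ (0 < S ↔ Admissible A B c a) ∧
      ((solutions A B c a).Infinite ↔ Admissible A B c a) ∧
      (∀ ε : ℝ, 0 < ε → (fun x : ℕ => (count A B c a x : ℝ) - S * mainTerm A B c x) =O[atTop]
        fun x : ℕ => (x : ℝ) ^ (1 / 2 + ε)) ∧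
      ∀ δ : ℝ, 0 < δ → ∀ U : ℕ, ∀ᶠ x : ℕ in atTop, ∀ H : ℕ, (x : ℝ) ^ δ ≤ H →
        |((count A B c a (x + H) : ℝ) - count A B c a x) - S * (mainTerm A B c (x + H) - mainTerm A B c x)| ≤
          H / Real.log ((x : ℝ) + H) ^ U :=
  Pool.Agent.W2helper14.RB.linear_ae2

end Pool.Agent.Results.MP_bf63dc_nt.RandomSieveEquation
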